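import Pool.Agent.H32.N6H.Targets
import Mathlib.FieldTheory.ChevalleyWarning

/-!
# Chevalley and Warning for two quadratic and three linear forms
-/

set_option autoImplicit false

open Polynomial Matrix NumberField IsDedekindDomain Pool.Agent.H32.QC Pool.Agent.H34.N6
  Pool.Agent.H32.N6H

namespace Pool.Agent.H25.N6H

/-- the quadratic form of a matrix as a polynomial -/
noncomputable def qp {F : Type} [Field F] {m : ℕ} (A : Matrix (Fin m) (Fin m) F) :
    MvPolynomial (Fin m) F :=
  ∑ i, ∑ j, MvPolynomial.C (A i j) * (MvPolynomial.X i * MvPolynomial.X j)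

/-- the linear form of a vector as a polynomial -/
noncomputable def lp {F : Type} [Field F] {m : ℕ} (l : Fin m → F) :
    MvPolynomial (Fin m) F :=
  ∑ i, MvPolynomial.C (l i) * MvPolynomial.X i

lemma qp_deg {F : Type} [Field F] {m : ℕ} (A : Matrix (Fin m) (Fin m) F) :
    (qp A).totalDegree ≤ 2 := by
  unfold qp
  refine MvPolynomial.totalDegree_finsetSum_le fun i _ => ?_
  refine MvPolynomial.totalDegree_finsetSum_le fun j _ => ?_
  refine (MvPolynomial.totalDegree_mul _ _).trans ?_
  rw [MvPolynomial.totalDegree_C, zero_add]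
  refine (MvPolynomial.totalDegree_mul _ _).trans ?_
  rw [MvPolynomial.totalDegree_X, MvPolynomial.totalDegree_X]

lemma lp_deg {F : Type} [Field F] {m : ℕ} (l : Fin m → F) :
    (lp l).totalDegree ≤ 1 := by
  unfold lp
  refine MvPolynomial.totalDegree_finsetSum_le fun i _ => ?_
  refine (MvPolynomial.totalDegree_mul _ _).trans ?_
  rw [MvPolynomial.totalDegree_C, zero_add, MvPolynomial.totalDegree_X]

lemma qp_eval {F : Type} [Field F] {m : ℕ} (A : Matrix (Fin m) (Fin m) F) (x : Fin m → F) :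
    MvPolynomial.eval x (qp A) = x ⬝ᵥ (A *ᵥ x) := by
  simp only [qp, map_sum, map_mul, MvPolynomial.eval_C, MvPolynomial.eval_X, dotProduct, mulVec,
    Finset.mul_sum]
  refine Finset.sum_congr rfl fun i _ => Finset.sum_congr rfl fun j _ => ?_
  ring

lemma lp_eval {F : Type} [Field F] {m : ℕ} (l : Fin m → F) (x : Fin m → F) :
    MvPolynomial.eval x (lp l) = l ⬝ᵥ x := by
  simp only [lp, map_sum, map_mul, MvPolynomial.eval_C, MvPolynomial.eval_X, dotProduct]

theorem pf_CHW : T_CHW := by
  intro F _ _ m hm A B l g h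
  classical
  have : Fintype F := Fintype.ofFinite F
  obtain ⟨p, hp⟩ := CharP.exists F
  have := hp
  have hpp : p.Prime := CharP.char_is_prime F p
  let f : Fin 5 → MvPolynomial (Fin m) F := ![qp A, qp B, lp l, lp g, lp h]
  have hdeg : (∑ i, (f i).totalDegree) < Fintype.card (Fin m) := by
    rw [Fintype.card_fin]
    simp only [f, Fin.sum_univ_five, cons_val]
    have h1 := qp_deg A
    have h2 := qp_deg B
    have h3 := lp_deg l
    have h4 := lp_deg g
    have h5 := lp_deg h
    omega
  have h0 : ∀ i, MvPolynomial.eval (0 : Fin m → F) (f i) = 0 := by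
    have a1 : ∀ M : Matrix (Fin m) (Fin m) F,
        MvPolynomial.eval (0 : Fin m → F) (qp M) = 0 := by
      intro M
      rw [qp_eval, zero_dotProduct]
    have a2 : ∀ v : Fin m → F, MvPolynomial.eval (0 : Fin m → F) (lp v) = 0 := by
      intro v
      rw [lp_eval, dotProduct_zero]
    intro i
    fin_cases i
    exacts [a1 A, a1 B, a2 l, a2 g, a2 h]
  let z : {x : Fin m → F // ∀ i, MvPolynomial.eval x (f i) = 0} := ⟨0, h0⟩
  have hd : p ∣ Nat.card {x : Fin m → F // ∀ i, MvPolynomial.eval x (f i) = 0} := by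
    have h := char_dvd_card_solutions_of_fintype_sum_lt p hdeg
    rwa [← @Nat.card_eq_fintype_card _ (_)] at h
  have hne : Nonempty {x : Fin m → F // ∀ i, MvPolynomial.eval x (f i) = 0} := ⟨z⟩
  have hpos : 0 < Nat.card {x : Fin m → F // ∀ i, MvPolynomial.eval x (f i) = 0} :=
    Nat.card_pos
  have h1 : 1 < Nat.card {x : Fin m → F // ∀ i, MvPolynomial.eval x (f i) = 0} :=
    lt_of_lt_of_le hpp.one_lt (Nat.le_of_dvd hpos hd)
  rw [Finite.one_lt_card_iff_nontrivial] at h1
  obtain ⟨x, hx⟩ := exists_ne z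
  refine ⟨x.1, fun h => hx (Subtype.ext h), ?_, ?_, ?_, ?_, ?_⟩
  · rw [← qp_eval]; exact x.2 0
  · rw [← qp_eval]; exact x.2 1
  · rw [← lp_eval]; exact x.2 2
  · rw [← lp_eval]; exact x.2 3
  · rw [← lp_eval]; exact x.2 4

end Pool.Agent.H25.N6H
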