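import Pool.Agent.H32.N6H.Targets
import Pool.Agent.H32.SABP.SMO
import Pool.Agent.H55.QCL.ADC
import Pool.Agent.H55.QCL.APR

/-!
# An open set of hyperplanes at every place
-/

set_option autoImplicit false

open Polynomial Matrix NumberField IsDedekindDomain Pool.Agent.H32.QC Pool.Agent.H34.N6
  Pool.Agent.H32.N6H

namespace Pool.Agent.H25.N6H

theorem opl_core (hOPC : T_OPC) (hOPI : T_OPI) (F : Type) [NontriviallyNormedField F]
    [CompleteSpace F] [CharZero F] (n : ℕ) (hn : 3 ≤ n)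
    (A B : Matrix (Fin (n + 1)) (Fin (n + 1)) F) (hSD : SD A B) (hCZ : CZ A B)
    (h0 : ¬ (A 0 0 = 0 ∧ B 0 0 = 0)) :
    ∃ (c : Fin n → F) (e : ℝ), 0 < e ∧ ∀ c' : Fin n → F, (∀ i, ‖c' i - c i‖ < e) →
      CZ (sec c' A) (sec c' B) := by
  obtain ⟨P, hP, hPA, hPB⟩ := hCZ
  have hli : LinearIndependent F ![A *ᵥ P, B *ᵥ P] :=
    Pool.Agent.H32.SABP.pf_SMO F (n + 1) A B hSD.sA hSD.sB hSD.sep hSD.deg P hP hPA hPB
  have hex : ∃ i : Fin n, P i.succ ≠ 0 := by
    by_contra hne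
    push Not at hne
    have hz : ∀ M : Matrix (Fin (n + 1)) (Fin (n + 1)) F,
        P ⬝ᵥ (M *ᵥ P) = P 0 * (M 0 0 * P 0) := by
      intro M
      simp only [dotProduct, mulVec, Fin.sum_univ_succ, hne, zero_mul, mul_zero,
        Finset.sum_const_zero, add_zero]
    have hP0 : P 0 ≠ 0 := by
      intro h
      apply hP
      funext i
      refine Fin.cases h (fun j => hne j) i
    rw [hz] at hPA hPB
    apply h0
    constructor
    · rcases mul_eq_zero.1 hPA with h | h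
      · exact absurd h hP0
      · exact (mul_eq_zero.1 h).resolve_right hP0
    · rcases mul_eq_zero.1 hPB with h | h
      · exact absurd h hP0
      · exact (mul_eq_zero.1 h).resolve_right hP0
  obtain ⟨c, hc1, hc2⟩ := hOPC F n hn A B P hSD.sA hSD.sB hPA hPB hex hli
  obtain ⟨e, he, h⟩ := hOPI F n A B P c two_ne_zero hSD.sA hSD.sB hP hPA hPB hc1 hc2
  exact ⟨c, e, he, h⟩

theorem pf_OPL (hOPC : T_OPC) (hOPI : T_OPI) (hSDM : T_SDM) : T_OPL := by
  intro K _ _ n hn A B hSD hL h0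
  have h0' : ∀ (F : Type) [Field F] (φ : K →+* F),
      ¬ ((A.map φ) 0 0 = 0 ∧ (B.map φ) 0 0 = 0) := by
    intro F _ φ h
    apply h0
    rw [Matrix.map_apply, Matrix.map_apply] at h
    exact ⟨(map_eq_zero φ).1 h.1, (map_eq_zero φ).1 h.2⟩
  constructor
  · intro v
    obtain ⟨hpr, hch, x0, hx0⟩ := Pool.Agent.H55.QCL.pf_ADC Pool.Agent.H55.QCL.pf_APR K v
    let nn : NontriviallyNormedField (v.adicCompletion K) :=
      { (inferInstance : NormedField (v.adicCompletion K)) with non_trivial := ⟨x0, hx0⟩ }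
    have hcs : CompleteSpace (v.adicCompletion K) := complete_of_proper
    exact @opl_core hOPC hOPI (v.adicCompletion K) nn hcs hch n hn (A.map (ic v))
      (B.map (ic v)) ((hSDM K (v.adicCompletion K) (ic v) (n + 1) A B).1.1 hSD)
      (hL (.inl v)) (h0' (v.adicCompletion K) (ic v))
  · intro φ
    exact opl_core hOPC hOPI ℝ n hn (A.map φ) (B.map φ)
      ((hSDM K ℝ φ (n + 1) A B).1.1 hSD) (hL (.inr φ)) (h0' ℝ φ)

end Pool.Agent.H25.N6H
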